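import Pool.Agent.Helper496.PerspSP

set_option autoImplicit false

/-!
# The minimum of the perspective Tutte polynomial at `(0,0,1)` and all extremal perspectives

For every connected matroid perspective `M → M'` one has `T(M,M';0,0,1) ≥ 2^(r(M)-r(M')+1) - 2`,
this is attained for every value of `r(M)-r(M')`, and equality holds exactly when `M = M'` is
connected or `M → M'` lies in the class `SP` of series and parallel extensions.
-/

namespace Pool.Agent.Results.MP_321d0a_co.MinimumAndExtremal

open Set Pool.Agent.Helper496 Pool.Agent.Helper496.MP321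

/-- the rank one matroid on `Fin n` without loops -/
noncomputable def rankOne (n : ℕ) : Matroid (Fin n) :=
  (Matroid.freeOn (univ : Set Unit)).comap (fun _ => ())

theorem rankOne_ground (n : ℕ) : (rankOne n).E = univ := by
  unfold rankOne; simp

theorem zr_rankOne {n : ℕ} (X : Finset (Fin n)) (hX : X.Nonempty) : zr (rankOne n) X = 1 := by
  unfold zr rk rankOne
  rw [Matroid.eRk_comap, Matroid.eRk_freeOn (subset_univ _)]
  have : (fun _ : Fin n => ()) '' (X : Set (Fin n)) = {()} := by
    ext x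
    constructor
    · intro _; exact Subsingleton.elim _ _
    · intro _
      obtain ⟨y, hy⟩ := hX
      exact ⟨y, hy, rfl⟩
  rw [this]
  simp

theorem sp_rankOne (k : ℕ) (hk : 1 ≤ k) :
    SP (Matroid.freeOn (rankOne (k + 1)).E) (rankOne (k + 1)) ∧
      rkDiff (Matroid.freeOn (rankOne (k + 1)).E) (rankOne (k + 1)) = k := by
  have hE : ((Finset.univ : Finset (Fin (k + 1))) : Set (Fin (k + 1))) = (rankOne (k + 1)).E := by
    rw [rankOne_ground]; simp
  have hEd : ((Finset.univ : Finset (Fin (k + 1))) : Set (Fin (k + 1))) =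
      (Matroid.dual (rankOne (k + 1))).E := by rw [Matroid.dual_ground, hE]
  have hcard : (Finset.univ : Finset (Fin (k + 1))).card = k + 1 := by simp
  have hne : (Finset.univ : Finset (Fin (k + 1))).Nonempty := Finset.univ_nonempty
  have hcoc : (rankOne (k + 1)).IsCocircuit (rankOne (k + 1)).E := by
    rw [Matroid.isCocircuit_def, ← hE, circuit_iff_zr _ Finset.univ hEd.subset]
    constructor
    · rw [zr_dual _ hE (Finset.Subset.refl _), Finset.sdiff_self, (zr_isRk _).empty,
        zr_rankOne _ hne]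
      intro hcon
      linarith
    · intro e _
      rw [zr_dual _ hE (Finset.erase_subset e _), zr_rankOne _ hne, zr_rankOne]
      · ring
      · exact ⟨e, by simp⟩
  have hfin : (rankOne (k + 1)).E.Finite := toFinite _
  have hnt : (rankOne (k + 1)).E.Nontrivial := by
    rw [← hE]
    have : (Finset.univ : Finset (Fin (k + 1))).Nontrivial := by
      rw [← Finset.one_lt_card_iff_nontrivial, hcard]; omega
    exact_mod_cast this
  have hSP := SP.cocircuit (rankOne (k + 1)) hfin hnt hcoc
  refine ⟨hSP, ?_⟩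
  have hP := (extremal_of_sp hSP).1
  have h1 := rkDiff_cast hP (E0 := Finset.univ) hE
  have h2 : zr (Matroid.freeOn (rankOne (k + 1)).E) Finset.univ = (k : ℤ) + 1 := by
    have := (indep_iff_zr (Matroid.freeOn (rankOne (k + 1)).E) Finset.univ).mp (by
      rw [Matroid.freeOn_indep_iff, hE])
    rw [this, hcard]; push_cast; rfl
  rw [h2, zr_rankOne _ hne] at h1
  have : (rkDiff (Matroid.freeOn (rankOne (k + 1)).E) (rankOne (k + 1)) : ℤ) = k := by
    rw [h1]; ring
  exact_mod_cast this

theorem sharp (k : ℕ) : ∃ M M' : Matroid (Fin (k + 1)), IsPerspective M M' ∧ IsConnected M M' ∧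
    rkDiff M M' = k ∧ tutte M M' 0 0 1 = 2 ^ (k + 1) - 2 := by
  rcases Nat.eq_zero_or_pos k with rfl | hk
  · have hfin : (Matroid.freeOn (univ : Set (Fin 1))).E.Finite := toFinite _
    have hc : IsConnected (Matroid.freeOn (univ : Set (Fin 1))) (Matroid.freeOn univ) := by
      refine ⟨⟨0, mem_univ _⟩, ?_⟩
      intro A hA _
      obtain ⟨x, hx⟩ := hA
      ext y
      rw [Subsingleton.elim y x]
      exact ⟨fun _ => mem_univ _, fun _ => hx⟩
    obtain ⟨h1, h2, h3⟩ := tutte_of_eq hfin hc
    exact ⟨_, _, h1, hc, h2, by rw [h3]; norm_num⟩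
  · obtain ⟨h1, h2⟩ := sp_rankOne k hk
    obtain ⟨h3, h4, _, h5⟩ := extremal_of_sp h1
    exact ⟨_, _, h3, h4, h2, by rw [h5, h2]⟩

universe u

/-- **Main theorem.** -/
theorem result :
    (∀ {α : Type u} (M M' : Matroid α), IsPerspective M M' → IsConnected M M' →
      (2 : ℤ) ^ (rkDiff M M' + 1) - 2 ≤ tutte M M' 0 0 1) ∧
    (∀ k : ℕ, ∃ M M' : Matroid (Fin (k + 1)), IsPerspective M M' ∧ IsConnected M M' ∧
      rkDiff M M' = k ∧ tutte M M' 0 0 1 = 2 ^ (k + 1) - 2) ∧
    (∀ {α : Type u} (M M' : Matroid α), SP M M' → 1 ≤ rkDiff M M') ∧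
    (∀ {α : Type u} (M M' : Matroid α),
      (IsPerspective M M' ∧ IsConnected M M' ∧
        tutte M M' 0 0 1 = 2 ^ (rkDiff M M' + 1) - 2) ↔
      ((M = M' ∧ M.E.Finite ∧ IsConnected M M) ∨ SP M M')) := by
  refine ⟨fun M M' h hc => lower_bound h hc, sharp, fun M M' h => (extremal_of_sp h).2.2.1, ?_⟩
  intro α M M'
  constructor
  · rintro ⟨h, hc, hT⟩
    rcases Nat.eq_zero_or_pos (rkDiff M M') with h0 | hpos
    · left
      have heq := eq_of_rkDiff_zero h h0
      subst heq
      exact ⟨rfl, h.finite, hc⟩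
    · exact Or.inr (sp_of_extremal h hc hpos hT)
  · rintro (⟨rfl, hfin, hc⟩ | h)
    · obtain ⟨h1, h2, h3⟩ := tutte_of_eq hfin hc
      exact ⟨h1, hc, by rw [h3, h2]; norm_num⟩
    · obtain ⟨h1, h2, _, h4⟩ := extremal_of_sp h
      exact ⟨h1, h2, h4⟩

end Pool.Agent.Results.MP_321d0a_co.MinimumAndExtremal
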